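import Mathlib

set_option autoImplicit false

namespace Pool.Agent.Results.MP_5f9057_an.Q2

open Polynomial

/-- all complex zeros are real (the zero polynomial is allowed) -/
def OnlyRealZeros (p : ℝ[X]) : Prop := p = 0 ∨ ∀ z : ℂ, aeval z p = 0 → z.im = 0

/-- `γ` is a `q`-multiplier sequence -/
def IsMS (q : ℕ → ℝ[X]) (γ : ℕ → ℝ) : Prop :=
  ∀ (n : ℕ) (a : ℕ → ℝ), OnlyRealZeros (∑ k ∈ Finset.range (n + 1), C (a k) * q k) →
    OnlyRealZeros (∑ k ∈ Finset.range (n + 1), C (a k * γ k) * q k)

/-- the simple set `P_j` -/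
noncomputable def P (j k : ℕ) : ℝ[X] :=
  if k ≤ j then ∑ i ∈ Finset.range (k + 1), X ^ i else X ^ k

theorem orz_mono (c : ℝ) (k : ℕ) : OnlyRealZeros (C c * X ^ k) := by
  by_cases hc : c = 0
  · left; simp [hc]
  · right
    intro z hz
    simp only [map_mul, aeval_C, map_pow, aeval_X, mul_eq_zero] at hz
    rcases hz with hz | hz
    · exact absurd (by simpa using hz) hc
    · rw [pow_eq_zero_iff'] at hz
      simp [hz.1]

theorem mem_small (j : ℕ) : IsMS (P j) (fun k => if k = j + 1 then 1 else 0) := by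
  intro n a _
  have : ∑ k ∈ Finset.range (n + 1), C (a k * if k = j + 1 then 1 else 0) * P j k =
      C (if j + 1 ∈ Finset.range (n + 1) then a (j + 1) else 0) * X ^ (j + 1) := by
    simp only [mul_ite, mul_one, mul_zero, apply_ite C, map_zero, ite_mul, zero_mul]
    rw [Finset.sum_ite_eq']
    simp [P]
  rw [this]
  exact orz_mono _ _

theorem not_mem_big (i j : ℕ) (hj : 1 ≤ j) (hij : j < i) :
    ¬ IsMS (P i) (fun k => if k = j + 1 then 1 else 0) := by
  intro h
  have h1 := h (j + 1) (fun k => if k = j + 1 then 1 else if k = j then -1 else 0) (by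
    have : ∑ k ∈ Finset.range (j + 1 + 1),
        C (if k = j + 1 then (1:ℝ) else if k = j then -1 else 0) * P i k = C 1 * X ^ (j + 1) := by
      rw [Finset.sum_range_succ, Finset.sum_range_succ, Finset.sum_eq_zero]
      · simp only [P, if_pos (show j ≤ i by omega), if_pos (show j + 1 ≤ i by omega)]
        rw [Finset.sum_range_succ _ (j + 1)]
        simp
      · intro k hk
        have := Finset.mem_range.1 hk
        rw [if_neg (by omega), if_neg (by omega)]
        simp
    rw [this]
    exact orz_mono _ _)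
  have h2 : ∑ k ∈ Finset.range (j + 1 + 1),
      C ((if k = j + 1 then (1:ℝ) else if k = j then -1 else 0) * if k = j + 1 then 1 else 0) * P i k =
      ∑ i ∈ Finset.range (j + 2), X ^ i := by
    rw [Finset.sum_range_succ, Finset.sum_eq_zero]
    · simp [P, show j + 1 ≤ i by omega]
    · intro k hk
      have := Finset.mem_range.1 hk
      rw [if_neg (show k ≠ j + 1 by omega), if_neg (show k ≠ j + 1 by omega)]
      simp
  simp only at h1
  rw [h2] at h1
  have hprim := Complex.isPrimitiveRoot_exp (j + 2) (by omega)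
  set w := Complex.exp (2 * Real.pi * Complex.I / ((j + 2 : ℕ) : ℂ)) with hw
  rcases h1 with h1 | h1
  · have := congrArg (fun p : ℝ[X] => p.eval 0) h1
    simp [Finset.sum_range_succ', eval_finset_sum] at this
  · have h3 := h1 w (by
      simp only [map_sum, map_pow, aeval_X]
      exact hprim.geom_sum_eq_zero (by omega))
    have h4 : w = (w.re : ℂ) := by
      apply Complex.ext <;> simp [h3]
    have h5 : ‖w‖ = 1 := hprim.norm'_eq_one (by omega)
    have h6 : w ^ 2 = 1 := by
      rw [h4, Complex.norm_real, Real.norm_eq_abs] at h5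
      rw [h4]
      have : w.re ^ 2 = 1 := by rw [← sq_abs, h5]; norm_num
      exact_mod_cast this
    have := Nat.le_of_dvd (by norm_num) (hprim.dvd_of_pow_eq_one 2 h6)
    omega

theorem result (i j : ℕ) (hi : 1 ≤ i) (hj : 1 ≤ j) (hij : i ≠ j) :
    {γ : ℕ → ℝ | IsMS (P i) γ} ≠ {γ : ℕ → ℝ | IsMS (P j) γ} := by
  intro h
  rcases lt_or_gt_of_ne hij with hlt | hlt
  · have : (fun k => if k = i + 1 then (1:ℝ) else 0) ∈ {γ : ℕ → ℝ | IsMS (P i) γ} := mem_small i
    rw [h] at this
    exact not_mem_big j i hi hlt this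
  · have : (fun k => if k = j + 1 then (1:ℝ) else 0) ∈ {γ : ℕ → ℝ | IsMS (P j) γ} := mem_small j
    rw [← h] at this
    exact not_mem_big i j hj hlt this

end Pool.Agent.Results.MP_5f9057_an.Q2
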